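import Pool.Agent.OP90.MapP
import Pool.Agent.BF80.Main

/-!
# From solutions algebraic over the parameter to solutions in `k0`
-/

set_option maxSynthPendingDepth 10

namespace OP90

open FT80 BF80 Filter

section RAlg

variable {p : ℕ} [Fact p.Prime] {M : Type} [Field M]

/-- `z` is algebraic over the field generated by `s` -/
def RAlg (σ : P1 p →+* M) (s z : M) : Prop :=
  (BF80.Alg1 σ s → BF80.Alg1 σ z) ∧ BF80.Alg1 (ev1 σ s) z

omit [Fact p.Prime] in
theorem alg1_triv {σ : P1 p →+* M} {s : M} (hs : BF80.Alg1 σ s) (z : M) :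
    BF80.Alg1 (ev1 σ s) z := by
  obtain ⟨q, hq, h⟩ := hs
  refine ⟨Polynomial.C q, Polynomial.C_ne_zero.2 hq, ?_⟩
  rw [ev1, Polynomial.coe_eval₂RingHom, Polynomial.eval₂_C]
  exact h

omit [Fact p.Prime] in
theorem RAlg.iff_alg {σ : P1 p →+* M} {s : M} (hs : BF80.Alg1 σ s) (z : M) :
    RAlg σ s z ↔ BF80.Alg1 σ z :=
  ⟨fun h => h.1 hs, fun h => ⟨fun _ => h, alg1_triv hs z⟩⟩

omit [Fact p.Prime] in
theorem RAlg.iff_trans {σ : P1 p →+* M} {s : M} (hs : ¬ BF80.Alg1 σ s) (z : M) :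
    RAlg σ s z ↔ BF80.Alg1 (ev1 σ s) z :=
  ⟨fun h => h.2, fun h => ⟨fun h' => absurd h' hs, h⟩⟩

end RAlg

/-- from the ultrapower to the field -/
theorem psol_of_up {K : Type} [Field K] (t : K) (a : List Eqn × PS)
    (h : PSol (diag K t) a) : PSol t a := by
  obtain ⟨sU, hg, h⟩ := h
  obtain ⟨S, rfl⟩ := cl_surj sU
  have ht : diag K t = cl K (fun _ => t) := (cl_const t).symm
  have h1 : ∀ᶠ n in ((hyperfilter ℕ : Ultrafilter ℕ) : Filter ℕ), evs t (S n) a.2 ≠ 0 := by
    by_contra hcon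
    rw [← Ultrafilter.eventually_not] at hcon
    apply hg
    rw [ht, evs_map', ← map_zero (cl K), cl_eq]
    filter_upwards [hcon] with n hn
    have e1 := evs_map' (Pi.evalRingHom (fun _ : ℕ => K) n) (fun _ => t) S a.2
    have e2 : evs t (S n) a.2 = evs (fun _ => t) S a.2 n := e1
    rw [← e2]
    exact not_not.1 hn
  have h2 : ∀ᶠ n in ((hyperfilter ℕ : Ultrafilter ℕ) : Filter ℕ),
      ∀ f ∈ {f | f ∈ a.1}, ∃ x y : ℕ → K, Eqn.val t (S n) x y f = 0 := by
    rw [Filter.eventually_all_finite (List.finite_toSet a.1)]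
    intro f hf
    obtain ⟨x, y, hxy⟩ := h f hf
    have hx : ∀ i, ∃ r : ℕ → K, cl K r = x i := fun i => cl_surj (x i)
    have hy : ∀ i, ∃ r : ℕ → K, cl K r = y i := fun i => cl_surj (y i)
    choose X hX using hx
    choose Y hY using hy
    have e1 : cl K (Eqn.val (fun _ => t) S X Y f) = 0 := by
      rw [← val_map, ← ht]
      rw [← hxy]
      congr 1
      · funext i
        exact hX i
      · funext i
        exact hY i
    rw [← map_zero (cl K), cl_eq] at e1
    filter_upwards [e1] with n hn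
    refine ⟨fun i => X i n, fun i => Y i n, ?_⟩
    have e2 := val_map (Pi.evalRingHom (fun _ : ℕ => K) n) (fun _ => t) S X Y f
    exact e2.trans hn
  obtain ⟨n, h3, h4⟩ := (h1.and h2).exists
  exact ⟨S n, h3, fun f hf => h4 f hf⟩

/-- OP-E: from elements algebraic over the parameter to `k0` -/
theorem down {p : ℕ} [Fact p.Prime] {M : Type} [Field M] {σ : P1 p →+* M} (hM : Mdl p σ) (s : M)
    (a : List Eqn × PS) (hg : evs (σ Polynomial.X) s a.2 ≠ 0)
    (h : ∀ f ∈ a.1, ∃ x y : ℕ → M, (∀ i, RAlg σ s (x i)) ∧ (∀ i, RAlg σ s (y i)) ∧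
      Eqn.val (σ Polynomial.X) s x y f = 0) : PSol (sig0 p Polynomial.X) a := by
  by_cases hs : BF80.Alg1 σ s
  · -- everything is algebraic over `F_p(t)`
    obtain ⟨j, hj, hj2, -⟩ := hM.exists_j
    obtain ⟨s', rfl⟩ := (hj2 s).1 hs
    refine ⟨s', ?_, ?_⟩
    · intro h0
      apply hg
      rw [← hj, evs_map', h0, map_zero]
    · intro f hf
      obtain ⟨x, y, hx, hy, h0⟩ := h f hf
      have hx' : ∀ i, ∃ z, j z = x i := fun i => (hj2 _).1 ((hx i).1 hs)
      have hy' : ∀ i, ∃ z, j z = y i := fun i => (hj2 _).1 ((hy i).1 hs)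
      choose X hX using hx'
      choose Y hY using hy'
      refine ⟨X, Y, ?_⟩
      apply j.injective
      rw [← val_map, map_zero, hj, ← h0]
      congr 1
      · funext i
        exact hX i
      · funext i
        exact hY i
  · -- the parameter is transcendental
    apply psol_of_up
    obtain ⟨ι, hι, hsA, -⟩ := starC hM s hs ∅ Set.countable_empty
    obtain ⟨htA, htι⟩ := hι Polynomial.X
    refine ⟨ι ⟨s, hsA⟩, ?_, ?_⟩
    · rw [← htι, evs_map']
      intro h0
      apply hg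
      have h1 : evs (⟨σ Polynomial.X, htA⟩ : algField (ev1 σ s)) ⟨s, hsA⟩ a.2 = 0 := by
        apply ι.injective
        rw [h0, map_zero]
      have h2 := evs_map' (algField (ev1 σ s)).subtype
        (⟨σ Polynomial.X, htA⟩ : algField (ev1 σ s)) ⟨s, hsA⟩ a.2
      rw [h1, map_zero] at h2
      exact h2
    · intro f hf
      obtain ⟨x, y, hx, hy, h0⟩ := h f hf
      have hx2 : ∀ i, x i ∈ algField (ev1 σ s) := fun i => (hx i).2
      have hy2 : ∀ i, y i ∈ algField (ev1 σ s) := fun i => (hy i).2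
      refine ⟨fun i => ι ⟨x i, hx2 i⟩, fun i => ι ⟨y i, hy2 i⟩, ?_⟩
      have h1 : Eqn.val (⟨σ Polynomial.X, htA⟩ : algField (ev1 σ s)) ⟨s, hsA⟩
          (fun i => ⟨x i, hx2 i⟩) (fun i => ⟨y i, hy2 i⟩) f = 0 := by
        apply (algField (ev1 σ s)).subtype.injective
        rw [← val_map, map_zero]
        exact h0
      rw [← htι, val_map ι (⟨σ Polynomial.X, htA⟩ : algField (ev1 σ s)) ⟨s, hsA⟩
        (fun i => ⟨x i, hx2 i⟩) (fun i => ⟨y i, hy2 i⟩) f, h1, map_zero]

end OP90
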