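import Pool.Agent.OP90.Defs
import Pool.Agent.LD90.Wrap

/-!
# The decision wrapper for equations over a one-parameter base

The problem is translated into a system in the sense of `LD90`; the parameter is the variable `0`,
the auxiliary variables of the equation with `j` equations behind it are `2 * pair j i + 1` and
`2 * pair j i + 2`.
-/

set_option maxSynthPendingDepth 10
set_option autoImplicit false

open Polynomial

namespace OP90

open FT80 BF80 LD90

namespace De

/-- the monomials of `c(s) * w` -/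
def mul1 (w : List ℕ) (c : PS) : PL := c.map fun m => (m.1, List.replicate m.2 0 ++ w)

/-- the variables `x_i` of the equation number `j` -/
def vx (j i : ℕ) : ℕ := 2 * Nat.pair j i + 1

/-- the variables `y_i` of the equation number `j` -/
def vy (j i : ℕ) : ℕ := 2 * Nat.pair j i + 2

/-- the polynomial part -/
def qL (j : ℕ) (l : List (PS × List ℕ)) : PL := l.flatMap fun m => mul1 (m.2.map (vx j)) m.1

/-- the diagonal part -/
def dL (j : ℕ) : List (PS × ℕ) → PL
  | [] => []
  | m :: l => mul1 (List.replicate m.2 (vy j l.length)) m.1 ++ dL j l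

/-- an equation -/
def eL (j : ℕ) (f : Eqn) : PL := qL j f.1 ++ dL j f.2

/-- the equations -/
def sL : List Eqn → List PL
  | [] => []
  | f :: fs => eL fs.length f :: sL fs

/-- the translation -/
def tr (a : List Eqn × PS) : List PL × PL := (sL a.1, mul1 [] a.2)

section sem

variable {R : Type*} [CommRing R] (t : R)

theorem ev_append (X : ℕ → R) (f g : PL) : ev t X (f ++ g) = ev t X f + ev t X g := by
  simp [ev]

theorem ev_mul1 (X : ℕ → R) (w : List ℕ) (c : PS) :
    ev t X (mul1 w c) = evs t (X 0) c * (w.map X).prod := by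
  induction c with
  | nil => simp [ev, evs, mul1]
  | cons m c ih =>
    have h1 : ev t X (mul1 w (m :: c)) =
        t ^ m.1 * ((List.replicate m.2 0 ++ w).map X).prod + ev t X (mul1 w c) := by
      simp [ev, mul1]
    have h2 : evs t (X 0) (m :: c) = t ^ m.1 * X 0 ^ m.2 + evs t (X 0) c := by
      simp [evs]
    rw [h1, h2, ih, List.map_append, List.prod_append, List.map_replicate, List.prod_replicate]
    ring

theorem ev_qL (X : ℕ → R) (j : ℕ) (l : List (PS × List ℕ)) :
    ev t X (qL j l) = qv t (X 0) (fun i => X (vx j i)) l := by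
  induction l with
  | nil => simp [ev, qL, qv]
  | cons m l ih =>
    have h1 : qL j (m :: l) = mul1 (m.2.map (vx j)) m.1 ++ qL j l := by
      simp [qL]
    have h2 : qv t (X 0) (fun i => X (vx j i)) (m :: l) =
        evs t (X 0) m.1 * (m.2.map fun i => X (vx j i)).prod +
          qv t (X 0) (fun i => X (vx j i)) l := by
      simp [qv]
    rw [h1, h2, ev_append, ev_mul1, ih, List.map_map]
    rfl

/-- the diagonal part with reversed variables -/
def dr {R : Type*} [CommRing R] (t s : R) : List (PS × ℕ) → (ℕ → R) → R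
  | [], _ => 0
  | m :: l, y => evs t s m.1 * y l.length ^ m.2 + dr t s l y

theorem ev_dL (X : ℕ → R) (j : ℕ) (l : List (PS × ℕ)) :
    ev t X (dL j l) = dr t (X 0) l (fun i => X (vy j i)) := by
  induction l with
  | nil => simp [ev, dL, dr]
  | cons m l ih =>
    rw [dL, ev_append, ev_mul1, ih, dr, List.map_replicate, List.prod_replicate]

theorem dv_congr (s : R) (l : List (PS × ℕ)) : ∀ y y' : ℕ → R, (∀ i < l.length, y i = y' i) →
    dv t s l y = dv t s l y' := by
  induction l with
  | nil => intro y y' _; rfl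
  | cons m l ih =>
    intro y y' h
    obtain ⟨a, d⟩ := m
    rw [dv, dv, h 0 (by simp), ih (fun i => y (i + 1)) (fun i => y' (i + 1))
      (fun i hi => h (i + 1) (by simpa using hi))]

theorem dr_eq (s : R) (l : List (PS × ℕ)) : ∀ y : ℕ → R,
    dr t s l y = dv t s l (fun i => y (l.length - 1 - i)) := by
  induction l with
  | nil => intro y; rfl
  | cons m l ih =>
    intro y
    obtain ⟨a, d⟩ := m
    rw [dr, dv, ih]
    have h1 : ((a, d) :: l).length - 1 - 0 = l.length := by simp
    have h2 : (fun i => y (((a, d) :: l).length - 1 - (i + 1))) =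
        fun i => y (l.length - 1 - i) := by
      funext i
      congr 1
      simp only [List.length_cons]
      omega
    rw [h1, h2]

theorem exists_dr (s : R) (l : List (PS × ℕ)) (y : ℕ → R) :
    ∃ y' : ℕ → R, dr t s l y' = dv t s l y := by
  refine ⟨fun i => y (l.length - 1 - i), ?_⟩
  rw [dr_eq]
  refine dv_congr t s l _ _ fun i hi => ?_
  congr 1
  omega

/-- an equation with reversed variables -/
def valr {R : Type*} [CommRing R] (t s : R) (x y : ℕ → R) (f : Eqn) : R :=
  qv t s x f.1 + dr t s f.2 y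

theorem exists_val (s : R) (f : Eqn) :
    (∃ x y : ℕ → R, Eqn.val t s x y f = 0) ↔ ∃ x y : ℕ → R, valr t s x y f = 0 := by
  constructor
  · rintro ⟨x, y, h⟩
    obtain ⟨y', hy'⟩ := exists_dr t s f.2 y
    refine ⟨x, y', ?_⟩
    rw [valr, hy']
    exact h
  · rintro ⟨x, y, h⟩
    rw [valr, dr_eq] at h
    exact ⟨x, _, h⟩

theorem ev_eL (X : ℕ → R) (j : ℕ) (f : Eqn) :
    ev t X (eL j f) = valr t (X 0) (fun i => X (vx j i)) (fun i => X (vy j i)) f := by
  rw [eL, ev_append, ev_qL, ev_dL, valr]

theorem sL_cons (X : ℕ → R) (f : Eqn) (fs : List Eqn) :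
    (∀ g ∈ sL (f :: fs), ev t X g = 0) ↔
      valr t (X 0) (fun i => X (vx fs.length i)) (fun i => X (vy fs.length i)) f = 0 ∧
        ∀ g ∈ sL fs, ev t X g = 0 := by
  rw [sL, List.forall_mem_cons, ev_eL]

theorem sL_congr (fs : List Eqn) (X X' : ℕ → R) (h0 : X 0 = X' 0)
    (hx : ∀ j < fs.length, ∀ i, X (vx j i) = X' (vx j i))
    (hy : ∀ j < fs.length, ∀ i, X (vy j i) = X' (vy j i)) :
    (∀ g ∈ sL fs, ev t X g = 0) → ∀ g ∈ sL fs, ev t X' g = 0 := by
  induction fs with
  | nil => intro _ g hg; simp [sL] at hg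
  | cons f fs ih =>
    rw [sL_cons, sL_cons]
    rintro ⟨h1, h2⟩
    have e1 : (fun i => X (vx fs.length i)) = fun i => X' (vx fs.length i) :=
      funext fun i => hx _ (by simp) i
    have e2 : (fun i => X (vy fs.length i)) = fun i => X' (vy fs.length i) :=
      funext fun i => hy _ (by simp) i
    rw [h0, e1, e2] at h1
    refine ⟨h1, ih (fun j hj i => hx j ?_ i) (fun j hj i => hy j ?_ i) h2⟩
    · rw [List.length_cons]; omega
    · rw [List.length_cons]; omega

theorem sL_sat (s : R) (fs : List Eqn) :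
    (∃ X : ℕ → R, X 0 = s ∧ ∀ g ∈ sL fs, ev t X g = 0) ↔
      ∀ f ∈ fs, ∃ x y : ℕ → R, valr t s x y f = 0 := by
  constructor
  · rintro ⟨X, rfl, h⟩
    induction fs with
    | nil => intro f hf; simp at hf
    | cons f fs ih =>
      rw [sL_cons] at h
      intro f' hf'
      rcases List.mem_cons.1 hf' with rfl | hf'
      · exact ⟨_, _, h.1⟩
      · exact ih h.2 f' hf'
  · intro h
    induction fs with
    | nil => exact ⟨fun _ => s, rfl, fun g hg => by simp [sL] at hg⟩
    | cons f fs ih =>
      obtain ⟨X, h0, h1⟩ := ih fun f' hf' => h f' (List.mem_cons_of_mem _ hf')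
      obtain ⟨x, y, h2⟩ := h f List.mem_cons_self
      classical
      let X' : ℕ → R := fun v => if v = 0 then s else
        if (Nat.unpair ((v - 1) / 2)).1 = fs.length then
          (if v % 2 = 1 then x (Nat.unpair ((v - 1) / 2)).2 else y (Nat.unpair ((v - 1) / 2)).2)
        else X v
      have a1 : ∀ j i, (vx j i - 1) / 2 = Nat.pair j i := by intro j i; simp only [vx]; omega
      have a2 : ∀ j i, (vy j i - 1) / 2 = Nat.pair j i := by intro j i; simp only [vy]; omega
      have a3 : ∀ j i, vx j i ≠ 0 := by intro j i; simp only [vx]; omega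
      have a4 : ∀ j i, vy j i ≠ 0 := by intro j i; simp only [vy]; omega
      have a5 : ∀ j i, vx j i % 2 = 1 := by intro j i; simp only [vx]; omega
      have a6 : ∀ j i, ¬ vy j i % 2 = 1 := by intro j i; simp only [vy]; omega
      have b0 : X' 0 = s := by simp only [X', if_true]
      have b1 : ∀ i, X' (vx fs.length i) = x i := by
        intro i
        simp only [X', a1, a3, a5, Nat.unpair_pair, if_true, if_false]
      have b2 : ∀ i, X' (vy fs.length i) = y i := by
        intro i
        simp only [X', a2, a4, a6, Nat.unpair_pair, if_true, if_false]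
      have b3 : ∀ j < fs.length, ∀ i, X (vx j i) = X' (vx j i) := by
        intro j hj i
        simp only [X', a1, a3, Nat.unpair_pair, if_false, hj.ne]
      have b4 : ∀ j < fs.length, ∀ i, X (vy j i) = X' (vy j i) := by
        intro j hj i
        simp only [X', a2, a4, Nat.unpair_pair, if_false, hj.ne]
      refine ⟨X', b0, ?_⟩
      rw [sL_cons]
      refine ⟨?_, sL_congr t fs X X' (h0.trans b0.symm) b3 b4 h1⟩
      rw [b0, funext b1, funext b2]
      exact h2

theorem tr_iff (a : List Eqn × PS) : Sol t (tr a) ↔ PSol t a := by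
  have hg : ∀ X : ℕ → R, ev t X (mul1 [] a.2) = evs t (X 0) a.2 := by
    intro X
    rw [ev_mul1]
    simp
  constructor
  · rintro ⟨X, h1, h2⟩
    refine ⟨X 0, ?_, ?_⟩
    · rw [← hg]; exact h2
    · intro f hf
      rw [exists_val]
      exact (sL_sat t (X 0) a.1).1 ⟨X, rfl, h1⟩ f hf
  · rintro ⟨s, h1, h2⟩
    obtain ⟨X, h3, h4⟩ := (sL_sat t s a.1).2 fun f hf => (exists_val t s f).1 (h2 f hf)
    refine ⟨X, h4, ?_⟩
    show ev t X (mul1 [] a.2) ≠ 0
    rw [hg, h3]
    exact h1

end sem

section prim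

open Primrec

theorem primrec_replicate {α : Type*} [Primcodable α] :
    Primrec₂ (fun (n : ℕ) (a : α) => List.replicate n a) := by
  have h : Primrec₂ (fun (x : ℕ × α) (_ : ℕ) => x.2) := Primrec.snd.comp Primrec.fst
  have h2 : Primrec (fun x : ℕ × α => (List.range x.1).map fun _ => x.2) :=
    Primrec.list_map (Primrec.list_range.comp Primrec.fst) h
  refine h2.of_eq fun x => ?_
  rw [List.map_const', List.length_range]

theorem primrec_mul1 : Primrec₂ mul1 := by
  have h1 : Primrec₂ (fun (x : List ℕ × PS) (m : ℕ × ℕ) => (m.1, List.replicate m.2 0 ++ x.1)) := by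
    have hm1 : Primrec (fun y : (List ℕ × PS) × (ℕ × ℕ) => y.2.1) :=
      Primrec.fst.comp Primrec.snd
    have hm2 : Primrec (fun y : (List ℕ × PS) × (ℕ × ℕ) => y.2.2) :=
      Primrec.snd.comp Primrec.snd
    have hw : Primrec (fun y : (List ℕ × PS) × (ℕ × ℕ) => y.1.1) :=
      Primrec.fst.comp Primrec.fst
    exact Primrec.pair hm1 (Primrec.list_append.comp
      (primrec_replicate.comp hm2 (Primrec.const 0)) hw)
  exact Primrec.list_map (f := fun x : List ℕ × PS => x.2) Primrec.snd h1

theorem primrec_vx : Primrec₂ vx :=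
  Primrec.nat_add.comp (Primrec.nat_mul.comp (Primrec.const 2)
    (Primrec₂.natPair.comp Primrec.fst Primrec.snd)) (Primrec.const 1)

theorem primrec_vy : Primrec₂ vy :=
  Primrec.nat_add.comp (Primrec.nat_mul.comp (Primrec.const 2)
    (Primrec₂.natPair.comp Primrec.fst Primrec.snd)) (Primrec.const 2)

theorem primrec_qL : Primrec₂ qL := by
  have h1 : Primrec₂ (fun (x : ℕ × List (PS × List ℕ)) (m : PS × List ℕ) =>
      mul1 (m.2.map (vx x.1)) m.1) := by
    have hj : Primrec (fun y : ((ℕ × List (PS × List ℕ)) × (PS × List ℕ)) × ℕ => y.1.1.1) :=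
      Primrec.fst.comp (Primrec.fst.comp Primrec.fst)
    have hv : Primrec₂ (fun (y : (ℕ × List (PS × List ℕ)) × (PS × List ℕ)) (i : ℕ) =>
        vx y.1.1 i) := primrec_vx.comp hj Primrec.snd
    have hw : Primrec (fun y : (ℕ × List (PS × List ℕ)) × (PS × List ℕ) =>
        y.2.2.map (vx y.1.1)) := Primrec.list_map (Primrec.snd.comp Primrec.snd) hv
    exact primrec_mul1.comp hw (Primrec.fst.comp Primrec.snd)
  exact Primrec.list_flatMap (f := fun x : ℕ × List (PS × List ℕ) => x.2) Primrec.snd h1

theorem primrec_dL : Primrec₂ dL := by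
  have hj : Primrec (fun y : (ℕ × List (PS × ℕ)) × ((PS × ℕ) × List (PS × ℕ) × PL) => y.1.1) :=
    Primrec.fst.comp Primrec.fst
  have hm : Primrec (fun y : (ℕ × List (PS × ℕ)) × ((PS × ℕ) × List (PS × ℕ) × PL) => y.2.1) :=
    Primrec.fst.comp Primrec.snd
  have hl : Primrec (fun y : (ℕ × List (PS × ℕ)) × ((PS × ℕ) × List (PS × ℕ) × PL) =>
      y.2.2.1.length) :=
    Primrec.list_length.comp (Primrec.fst.comp (Primrec.snd.comp Primrec.snd))
  have hi : Primrec (fun y : (ℕ × List (PS × ℕ)) × ((PS × ℕ) × List (PS × ℕ) × PL) => y.2.2.2) :=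
    Primrec.snd.comp (Primrec.snd.comp Primrec.snd)
  have h : Primrec₂ (fun (x : ℕ × List (PS × ℕ)) (y : (PS × ℕ) × List (PS × ℕ) × PL) =>
      mul1 (List.replicate y.1.2 (vy x.1 y.2.1.length)) y.1.1 ++ y.2.2) :=
    Primrec.list_append.comp (primrec_mul1.comp (primrec_replicate.comp
      (Primrec.snd.comp hm) (primrec_vy.comp hj hl)) (Primrec.fst.comp hm)) hi
  have h2 := Primrec.list_rec (f := fun x : ℕ × List (PS × ℕ) => x.2)
    (g := fun _ => ([] : PL)) Primrec.snd (Primrec.const _) h
  refine h2.of_eq fun x => ?_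
  obtain ⟨j, l⟩ := x
  show _ = dL j l
  induction l with
  | nil => rfl
  | cons v l ih =>
    simp only [dL, ← ih]

theorem primrec_eL : Primrec₂ eL :=
  Primrec.list_append.comp (primrec_qL.comp Primrec.fst (Primrec.fst.comp Primrec.snd))
    (primrec_dL.comp Primrec.fst (Primrec.snd.comp Primrec.snd))

theorem primrec_sL : Primrec sL := by
  have h : Primrec₂ (fun (_ : List Eqn) (y : Eqn × List Eqn × List PL) =>
      eL y.2.1.length y.1 :: y.2.2) := by
    have hl : Primrec (fun y : List Eqn × (Eqn × List Eqn × List PL) => y.2.2.1.length) :=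
      Primrec.list_length.comp (Primrec.fst.comp (Primrec.snd.comp Primrec.snd))
    have hf : Primrec (fun y : List Eqn × (Eqn × List Eqn × List PL) => y.2.1) :=
      Primrec.fst.comp Primrec.snd
    exact Primrec.list_cons.comp (primrec_eL.comp hl hf)
      (Primrec.snd.comp (Primrec.snd.comp Primrec.snd))
  have h2 := Primrec.list_rec (f := fun l : List Eqn => l) (g := fun _ => ([] : List PL))
    Primrec.id (Primrec.const _) h
  refine h2.of_eq fun l => ?_
  induction l with
  | nil => rfl
  | cons f l ih =>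
    simp only [sL, ← ih]

theorem primrec_tr : Primrec tr :=
  Primrec.pair (primrec_sL.comp Primrec.fst)
    (primrec_mul1.comp (Primrec.const []) Primrec.snd)

theorem primrec_adm (p : ℕ) : PrimrecPred fun a : List Eqn × PS => ∀ f ∈ a.1, Adm p f := by
  have h1 : PrimrecPred fun m : PS × List ℕ => m.2.length ≤ 2 ∧ (p = 2 → m.2.length ≤ 1) := by
    have e1 : PrimrecPred fun m : PS × List ℕ => m.2.length ≤ 2 :=
      Primrec.nat_le.comp (Primrec.list_length.comp Primrec.snd) (Primrec.const 2)
    have e2 : PrimrecPred fun m : PS × List ℕ => m.2.length ≤ 1 :=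
      Primrec.nat_le.comp (Primrec.list_length.comp Primrec.snd) (Primrec.const 1)
    by_cases hp : p = 2
    · exact (e1.and e2).of_eq fun m => by simp [hp]
    · exact e1.of_eq fun m => by simp [hp]
  have h2 : PrimrecPred fun m : PS × ℕ => ¬ p ∣ m.2 := by
    have e1 : PrimrecPred fun m : PS × ℕ => m.2 % p = 0 :=
      Primrec.eq.comp (Primrec.nat_mod.comp Primrec.snd (Primrec.const p)) (Primrec.const 0)
    exact e1.not.of_eq fun m => by rw [Nat.dvd_iff_mod_eq_zero]
  have h3 : PrimrecPred (Adm p) :=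
    (h1.forall_mem_list.comp Primrec.fst).and (h2.forall_mem_list.comp Primrec.snd)
  exact h3.forall_mem_list.comp Primrec.fst

end prim

/-- the closed formula of a translated system in the domain -/
noncomputable def TFg {α : Type} (τ : α → List PL × PL) (dom : α → Prop) (a : α) : FR :=
  open Classical in
  if dom a then Wr.exc (Wr.SysF (τ a)) ((Wr.SysF (τ a)).code + 1) else .eq 0 0

theorem primrec_TFg {α : Type} [Primcodable α] {τ : α → List PL × PL} (hτ : Primrec τ)
    {dom : α → Prop} (hdom : PrimrecPred dom) :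
    Primrec (fun a => (TFg τ dom a).code) := by
  classical
  have h1 : Primrec (fun a : α => Wr.kExc (Wr.SysF (τ a)).code ((Wr.SysF (τ a)).code + 1)) :=
    Wr.primrec_kExc.comp (Wr.primrec_SysF.comp hτ) (Primrec.succ.comp (Wr.primrec_SysF.comp hτ))
  have h2 : Primrec (fun a : α => if dom a then
      Wr.kExc (Wr.SysF (τ a)).code ((Wr.SysF (τ a)).code + 1) else
      Nat.pair 0 (Nat.pair 0 0)) := Primrec.ite hdom h1 (Primrec.const _)
  refine h2.of_eq fun a => ?_
  by_cases h : dom a
  · simp only [TFg, h, if_true, Wr.code_exc]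
  · simp only [TFg, h, if_false]
    rfl

open Wr in
/-- the decision procedure for translated systems -/
theorem decide_gen (p : ℕ) [Fact p.Prime] {α : Type} [Primcodable α] (τ : α → List PL × PL)
    (hτ : Primrec τ) (dom : α → Prop) (hdom : PrimrecPred dom)
    (h : ∀ (M : Type) [Field M] (σ : P1 p →+* M), Mdl p σ → ∀ a, dom a →
      (Sol (σ X) (τ a) ↔ Sol (tauK p X) (τ a))) :
    ∃ D : α → Bool, Computable D ∧
      ∀ a, dom a → (D a = true ↔
        Sol (HahnSeries.single 1 1 : LaurentSeries (ZMod p)) (τ a)) := by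
  obtain ⟨AL, hAL, hsound, hcomplete⟩ := exists_axioms p
  obtain ⟨P, hP, hPe⟩ := re_conseq AL hAL
  have hg : Primrec (fun a : α => (TFg τ dom a).code) := primrec_TFg hτ hdom
  have hg2 : Primrec (fun a : α => Nat.pair 6 (TFg τ dom a).code) :=
    Ax.p_pair (Primrec.const 6) hg
  -- the truth value does not depend on the model
  have hmod : ∀ a, ∀ (β : Type) (R : RS β), (∀ n e, Sat R e (AL n)) → ∀ x : β,
      (Sat R (fun _ => x) (TFg τ dom a) ↔ (dom a → Sol (tauK p X) (τ a))) := by
    intro a β R hR x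
    by_cases hd : dom a
    · obtain ⟨F, σ, rfl, hσ⟩ := @hcomplete β ⟨x⟩ R hR
      have e1 : TFg τ dom a = exc (SysF (τ a)) ((SysF (τ a)).code + 1) := by
        simp only [TFg, hd, if_true]
      rw [e1, sat_exc_code, exists_sat, h β σ hσ a hd]
      exact ⟨fun h' _ => h', fun h' => h' hd⟩
    · have e1 : TFg τ dom a = .eq 0 0 := by simp only [TFg, hd, if_false]
      rw [e1]
      exact ⟨fun _ h' => absurd h' hd, fun _ => rfl⟩
  have hKK : Mdl p (tauK p) := mdl_KK
  have h1 : ∀ a, (P (TFg τ dom a).code ↔ (dom a → Sol (tauK p X) (τ a))) := by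
    intro a
    rw [hPe]
    constructor
    · intro h'
      exact (hmod a (KK p) (ringRS (tauK p X)) (hsound (KK p) (tauK p) hKK) 0).1
        (h' (KK p) _ (hsound (KK p) (tauK p) hKK) 0)
    · intro h' β R hR x
      exact (hmod a β R hR x).2 h'
  have h2 : ∀ a, (P (Nat.pair 6 (TFg τ dom a).code) ↔
      ¬ (dom a → Sol (tauK p X) (τ a))) := by
    intro a
    refine (hPe (.neg (TFg τ dom a))).trans ?_
    constructor
    · intro h' h''
      exact h' (KK p) _ (hsound (KK p) (tauK p) hKK) 0
        ((hmod a (KK p) (ringRS (tauK p X)) (hsound (KK p) (tauK p) hKK) 0).2 h'')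
    · intro h' β R hR x h''
      exact h' ((hmod a β R hR x).1 h'')
  have h3 : ComputablePred (fun a : α => P (TFg τ dom a).code) := by
    rw [ComputablePred.computable_iff_re_compl_re']
    have h4 : REPred (fun a : α => P (Nat.pair 6 (TFg τ dom a).code)) := hP.comp hg2.to_comp
    refine ⟨hP.comp hg.to_comp, h4.of_eq fun a => ?_⟩
    rw [h1 a]
    exact h2 a
  obtain ⟨D, hD, hDe⟩ := ComputablePred.computable_iff.1 h3
  refine ⟨D, hD, fun a ha => ?_⟩
  have h4 := congrFun hDe a
  rw [← iff_eq_eq] at h4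
  rw [← h4, h1 a]
  have h5 : tauK p X = (HahnSeries.single 1 1 : LaurentSeries (ZMod p)) := by
    rw [tauK, RingHom.comp_apply, tau_X]
    exact HahnSeries.ofPowerSeries_X
  rw [← h5]
  exact ⟨fun h' => h' ha, fun h' _ => h'⟩

end De

open De in
/-- OP-D (Dec.lean): the decision wrapper -/
theorem decide_psol (p : ℕ) [Fact p.Prime]
    (h : ∀ (M : Type) [Field M] (σ : P1 p →+* M), Mdl p σ → ∀ a : List Eqn × PS,
      (∀ f ∈ a.1, Adm p f) → (PSol (σ Polynomial.X) a ↔ PSol (tauK p Polynomial.X) a)) :
    ∃ D : List Eqn × PS → Bool, Computable D ∧ ∀ a : List Eqn × PS, (∀ f ∈ a.1, Adm p f) →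
      (D a = true ↔ PSol (HahnSeries.single 1 1 : LaurentSeries (ZMod p)) a) := by
  obtain ⟨D, hD, hDe⟩ := decide_gen p tr primrec_tr (fun a => ∀ f ∈ a.1, Adm p f)
    (primrec_adm p) (fun M _ σ hM a ha => by
      rw [tr_iff, tr_iff]
      exact h M σ hM a ha)
  refine ⟨D, hD, fun a ha => ?_⟩
  rw [hDe a ha, tr_iff]

end OP90
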