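import Pool.Agent.LD90.CtxM

/-!
# Diagonal equations with coefficients in `k0`

A diagonal equation with coefficients algebraic over `F_p(t)` and exponents prime to `p` which is
solvable in a model is solvable in `k0`.
-/

set_option maxSynthPendingDepth 10

namespace OP90

open FT80 BF80

namespace CD

theorem alg_of_pow {R L : Type*} [CommRing R] [IsDomain R] [Field L] (τ : R →+* L) {z : L} {n : ℕ}
    (hn : n ≠ 0) (h : BF80.Alg1 τ (z ^ n)) : BF80.Alg1 τ z := by
  have h1 : (Polynomial.X ^ n - Polynomial.C (⟨z ^ n, h⟩ : algField τ)) ≠ 0 :=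
    Polynomial.X_pow_sub_C_ne_zero (Nat.pos_of_ne_zero hn) _
  refine BF80.CI.alg1_of_alg h1 ?_
  rw [Polynomial.eval₂_sub, Polynomial.eval₂_X_pow, Polynomial.eval₂_C]
  exact sub_self _

section

variable {p : ℕ} [hp : Fact p.Prime] {M : Type} [Field M] {σ : P1 p →+* M}

theorem natCast_unit (hM : Mdl p σ) {D : ℕ} (hD : ¬ p ∣ D) :
    ((D : ℕ) : M) ≠ 0 ∧ VO (σ Polynomial.X) ((D : ℕ) : M)⁻¹ := by
  have h3 : (D : M) = σ (Polynomial.C ((D : ℕ) : ZMod p)) := by
    rw [Polynomial.C_eq_natCast, map_natCast]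
  have h4 : ((D : ℕ) : ZMod p) ≠ 0 := by
    rw [Ne, ZMod.natCast_eq_zero_iff]
    exact hD
  rw [h3]
  exact hM.unit_σ (by rwa [Polynomial.coeff_C_zero])

/-- `1 + t a` is a `D`-th power, for `D` prime to `p` -/
theorem one_add_pow (hM : Mdl p σ) {D : ℕ} (hD : ¬ p ∣ D) {a : M}
    (ha : VO (σ Polynomial.X) a) :
    ∃ w : M, (1 + σ Polynomial.X * w) ^ D = 1 + σ Polynomial.X * a := by
  have ht := hM.t_ne
  have hta : VO (σ Polynomial.X) (1 + σ Polynomial.X * a) :=
    hM.add _ _ hM.one (hM.mul _ _ hM.VO_t ha)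
  have hc : ∀ i, ((1 + Polynomial.X) ^ D - Polynomial.C (1 + σ Polynomial.X * a) :
      Polynomial M).coeff i = (D.choose i : M) - if i = 0 then 1 + σ Polynomial.X * a else 0 := by
    intro i
    rw [Polynomial.coeff_sub, Polynomial.coeff_one_add_X_pow, Polynomial.coeff_C]
  obtain ⟨y, -, hy⟩ := hM.hensel
    ((1 + Polynomial.X) ^ D - Polynomial.C (1 + σ Polynomial.X * a)) (by
      intro i
      rw [hc]
      refine hM.sub (natCast_mem hM.OV _) ?_
      split_ifs
      · exact hta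
      · exact VO_zero _) (by
      rw [hc, if_pos rfl, Nat.choose_zero_right, Nat.cast_one]
      have h1 : (1 - (1 + σ Polynomial.X * a)) / σ Polynomial.X = -a := by
        field_simp
        ring
      rw [h1]
      exact ha.neg) (by
      rw [hc, if_neg one_ne_zero, Nat.choose_one_right, sub_zero]
      exact (natCast_unit hM hD).1) (by
      rw [hc, if_neg one_ne_zero, Nat.choose_one_right, sub_zero]
      exact (natCast_unit hM hD).2)
  refine ⟨y, ?_⟩
  rw [Polynomial.eval_sub, Polynomial.eval_pow, Polynomial.eval_add, Polynomial.eval_one,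
    Polynomial.eval_X, Polynomial.eval_C] at hy
  exact sub_eq_zero.1 hy

/-- approximation by elements of `k0` -/
theorem approx (hM : Mdl p σ) (j : k0 p →+* M) (hj : ∀ f, j (sig0 p f) = σ f) {x : M}
    (hx : x ∈ hM.OC) (N : ℕ) :
    ∃ r : k0 p, VO (σ Polynomial.X) ((x - j r) / σ Polynomial.X ^ N) := by
  have ht := hM.t_ne
  obtain ⟨n, hn⟩ := hx
  obtain ⟨s, hs⟩ := hM.exists_dig hn
  refine ⟨sig0 p (PowerSeries.trunc (N + n) s) / sig0 p Polynomial.X ^ n, ?_⟩
  rw [map_div₀, map_pow, hj, hj]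
  have h2 : (x - σ (PowerSeries.trunc (N + n) s) / σ Polynomial.X ^ n) / σ Polynomial.X ^ N =
      (σ Polynomial.X ^ n * x - σ (PowerSeries.trunc (N + n) s)) / σ Polynomial.X ^ (N + n) := by
    rw [pow_add]
    field_simp
  rw [h2]
  exact hs (N + n)

/-- the embedding of `k0` reflects the valuation ring -/
theorem VO_reflect (hM : Mdl p σ) (j : k0 p →+* M) (hj : ∀ f, j (sig0 p f) = σ f) {z : k0 p}
    (h : VO (σ Polynomial.X) (j z)) : VO (sig0 p Polynomial.X) z := by
  by_contra hz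
  have hz0 : z ≠ 0 := by
    rintro rfl
    exact hz (VO_zero _)
  have h1 : VO (sig0 p Polynomial.X) z⁻¹ := (mdl_k0.inv z).resolve_left hz
  rcases mdl_k0.div_t_or_inv h1 with h2 | ⟨-, h2⟩
  · apply hM.tinv
    have h3 := h2.map j
    rw [hj, map_div₀, map_inv₀, hj] at h3
    have h4 := hM.mul _ _ h h3
    have h5 : j z ≠ 0 := (map_ne_zero j).2 hz0
    have h6 : j z * ((j z)⁻¹ / σ Polynomial.X) = (σ Polynomial.X)⁻¹ := by
      field_simp
    rwa [h6] at h4
  · rw [inv_inv] at h2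
    exact hz h2

/-- elements of `k0` become integral after multiplication by a power of `t` -/
theorem k0_scale (z : k0 p) : ∃ n : ℕ, VO (sig0 p Polynomial.X) (sig0 p Polynomial.X ^ n * z) := by
  have h1 : (z : k0 p) ∈ (mdl_k0 (p := p)).OC := by
    refine (mdl_k0 (p := p)).alg_mem_OC ?_
    exact (mdl_k0 (p := p)).alg1_hom (RingHom.id _) (fun _ => rfl) z
  exact h1

/-- one term of the equation -/
theorem term_approx (hM : Mdl p σ) (j : k0 p →+* M) (hj : ∀ f, j (sig0 p f) = σ f) {e D : ℕ}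
    (hD : ¬ p ∣ D) (heD : e ∣ D) {T : M} {γ J : ℕ} {w : M}
    (hT : T ≠ 0) (hTw : T = (γ : ℕ) * σ Polynomial.X ^ J * w ^ D) {x : M} (hx : x ∈ hM.OC)
    {β : k0 p} {z : M} (hz : T * x = j β * z ^ e) :
    ∃ r ζ : k0 p, VO (σ Polynomial.X) ((x - j r) / σ Polynomial.X) ∧
      β * ζ ^ e = r * ((γ : ℕ) * sig0 p Polynomial.X ^ J) := by
  have ht := hM.t_ne
  have hD0 : D ≠ 0 := fun h => hD (h ▸ dvd_zero p)
  obtain ⟨q, rfl⟩ := heD
  have he0 : e ≠ 0 := left_ne_zero_of_mul hD0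
  have hq0 : q ≠ 0 := right_ne_zero_of_mul hD0
  by_cases hinf : hM.vc x < 1
  · refine ⟨0, 0, ?_, ?_⟩
    · rw [map_zero, sub_zero]
      have h1 := hM.vc_lt_one.1 hinf 1
      rwa [pow_one] at h1
    · rw [zero_pow he0, mul_zero, zero_mul]
  · have hx1 : hM.vc x = 1 := le_antisymm (hM.vc_le_one.2 hx) (not_lt.1 hinf)
    have hx0 : x ≠ 0 := by
      rintro rfl
      rw [map_zero] at hx1
      exact zero_ne_one hx1
    obtain ⟨n, hn⟩ : x⁻¹ ∈ hM.OC := by
      rw [← hM.vc_le_one, map_inv₀, hx1, inv_one]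
    obtain ⟨r, hr⟩ := approx hM j hj hx (n + 1)
    set d := (x - j r) / σ Polynomial.X ^ (n + 1) with hd
    have hxr : x - j r = σ Polynomial.X ^ (n + 1) * d := by
      rw [hd, mul_div_cancel₀ _ (pow_ne_zero _ ht)]
    obtain ⟨w', hw'⟩ := one_add_pow hM hD (hM.mul _ _ hn hr).neg
    have hjr : j r = x * (1 + σ Polynomial.X * w') ^ (e * q) := by
      rw [hw']
      have h1 : x * (1 + σ Polynomial.X * -(σ Polynomial.X ^ n * x⁻¹ * d)) =
          x - σ Polynomial.X ^ (n + 1) * d := by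
        rw [pow_succ]
        field_simp
        ring
      rw [h1, ← hxr]
      ring
    have hw0 : w ≠ 0 := by
      rintro rfl
      rw [zero_pow hD0, mul_zero] at hTw
      exact hT hTw
    have hβ0 : j β ≠ 0 := by
      intro h
      rw [h, zero_mul] at hz
      exact mul_ne_zero hT hx0 hz
    have hβ1 : β ≠ 0 := (map_ne_zero j).1 hβ0
    have hη : (z * (1 + σ Polynomial.X * w') ^ q / w ^ q) ^ e =
        j (β⁻¹ * (r * ((γ : ℕ) * sig0 p Polynomial.X ^ J))) := by
      rw [map_mul, map_mul, map_mul, map_inv₀, map_natCast, map_pow, hj, hjr, div_pow, mul_pow,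
        ← pow_mul, ← pow_mul, mul_comm q e]
      rw [hTw] at hz
      have hwD : w ^ (e * q) ≠ 0 := pow_ne_zero _ hw0
      generalize (1 + σ Polynomial.X * w') ^ (e * q) = A
      rw [eq_comm, inv_mul_eq_iff_eq_mul₀ hβ0, eq_comm, ← mul_div_assoc, div_eq_iff hwD]
      linear_combination (-A) * hz
    obtain ⟨j', hj', hj2, hj3, -⟩ := hM.exists_j
    have hjj : j = j' := hj3 j hj
    subst hjj
    have hη0 : BF80.Alg1 σ (z * (1 + σ Polynomial.X * w') ^ q / w ^ q) := by
      refine alg_of_pow σ he0 ?_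
      rw [hη]
      exact hM.alg1_hom j hj _
    obtain ⟨ζ, hζ⟩ := (hj2 _).1 hη0
    refine ⟨r, ζ, ?_, ?_⟩
    · have h1 : (x - j r) / σ Polynomial.X = σ Polynomial.X ^ n * d := by
        rw [hxr, pow_succ]
        field_simp
      rw [h1]
      exact hM.mul _ _ (hM.VO_pow hM.VO_t n) hr
    · rw [← hζ, ← map_pow] at hη
      have h1 := j.injective hη
      rw [h1, ← mul_assoc, mul_inv_cancel₀ hβ1, one_mul]

/-- the infinite case -/
theorem inf_case (hM : Mdl p σ) (j : k0 p →+* M) (hj : ∀ f, j (sig0 p f) = σ f) {m : ℕ}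
    (e : Fin m → ℕ) (he : ∀ i, ¬ p ∣ e i) (β : Fin m → k0 p) (β0 : k0 p) (z : Fin m → M)
    (h : ∑ i, j (β i) * z i ^ e i + j β0 = 0) (i0 : Fin m)
    (hmax : ∀ i, hM.vc (j (β i) * z i ^ e i) ≤ hM.vc (j (β i0) * z i0 ^ e i0))
    (h1 : 1 < hM.vc (j (β i0) * z i0 ^ e i0)) :
    ∃ z' : Fin m → k0 p, ∑ i, β i * z' i ^ e i + β0 = 0 := by
  classical
  have hk := mdl_k0 (p := p)
  have ht := hM.t_ne
  have ht0 := hk.t_ne
  have he0 : ∀ i, e i ≠ 0 := fun i h0 => he i (h0 ▸ dvd_zero p)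
  set D := ∏ i, e i with hD
  have hpD : ¬ p ∣ D := by
    intro h2
    obtain ⟨i, -, hi⟩ := (hp.out.prime.dvd_finsetProd_iff _).1 h2
    exact he i hi
  have hD0 : D ≠ 0 := fun h => hpD (h ▸ dvd_zero p)
  have hdvd : ∀ i, e i ∣ D := fun i => Finset.dvd_prod_of_mem _ (Finset.mem_univ i)
  set T := j (β i0) * z i0 ^ e i0 with hT
  have hT0 : T ≠ 0 := by
    intro h2
    rw [h2, map_zero] at h1
    exact absurd h1 (not_lt.2 zero_le_one)
  have hvT : (0 : hM.OC.ValueGroup) < hM.vc T := lt_trans zero_lt_one h1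
  obtain ⟨γ, hγp, J, -, w, hγ, hTw⟩ := hM.pow D hpD T hT0
  have hx : ∀ i, j (β i) * z i ^ e i / T ∈ hM.OC := by
    intro i
    rw [← hM.vc_le_one, map_div₀]
    exact div_le_one_of_le₀ (hmax i) hvT.le
  have hr : ∀ i, ∃ r ζ : k0 p,
      VO (σ Polynomial.X) ((j (β i) * z i ^ e i / T - j r) / σ Polynomial.X) ∧
      β i * ζ ^ e i = r * ((γ : ℕ) * sig0 p Polynomial.X ^ J) := by
    intro i
    exact term_approx hM j hj hpD (hdvd i) hT0 hTw (hx i) (by rw [mul_div_cancel₀ _ hT0])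
  choose r ζ hr hζ using hr
  -- the sum of the approximations
  have hS : VO (sig0 p Polynomial.X) ((∑ i, r i) / sig0 p Polynomial.X) := by
    apply VO_reflect hM j hj
    rw [map_div₀, map_sum, hj]
    have h2 : (∑ i, j (r i)) / σ Polynomial.X = (∑ i, j (β i) * z i ^ e i / T) / σ Polynomial.X -
        ∑ i, (j (β i) * z i ^ e i / T - j (r i)) / σ Polynomial.X := by
      have h3 : ∑ i, (j (β i) * z i ^ e i / T - j (r i)) / σ Polynomial.X =
          (∑ i, (j (β i) * z i ^ e i / T - j (r i))) / σ Polynomial.X :=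
        (Finset.sum_div _ _ _).symm
      rw [h3, Finset.sum_sub_distrib]
      ring
    rw [h2]
    refine hM.sub ?_ (hM.OV.sum_mem fun i _ => hr i)
    have h3 : ∑ i, j (β i) * z i ^ e i / T = -(j β0 / T) := by
      rw [← Finset.sum_div]
      have h4 : ∑ i, j (β i) * z i ^ e i = -j β0 := by linear_combination h
      rw [h4, neg_div]
    have h5 : hM.vc (∑ i, j (β i) * z i ^ e i / T) < 1 := by
      rw [h3, Valuation.map_neg, map_div₀, div_lt_one₀ hvT]
      exact lt_of_le_of_lt (hM.vc_le_one.2 (hM.alg_mem_OC (hM.alg1_hom j hj β0))) h1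
    have h6 := hM.vc_lt_one.1 h5 1
    rwa [pow_one] at h6
  -- the leading approximation is a unit
  have hr0 : r i0 ≠ 0 ∧ VO (sig0 p Polynomial.X) (r i0)⁻¹ := by
    have h2 := hr i0
    rw [← hT, div_self hT0] at h2
    obtain ⟨h3, h4⟩ := hM.inv_one_add h2.neg
    have h5 : 1 + σ Polynomial.X * -((1 - j (r i0)) / σ Polynomial.X) = j (r i0) := by
      field_simp
      ring
    rw [h5] at h3 h4
    refine ⟨(map_ne_zero j).1 h3, ?_⟩
    apply VO_reflect hM j hj
    rwa [map_inv₀]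
  set t0 := sig0 p Polynomial.X with ht0d
  set Λ : k0 p := (γ : ℕ) * t0 ^ J with hΛ
  have hγ0 : ((γ : ℕ) : k0 p) ≠ 0 := by
    refine (natCast_unit hk ?_).1
    intro h2
    exact absurd (Nat.le_of_dvd hγ h2) (not_le.2 hγp)
  have hΛ0 : Λ ≠ 0 := mul_ne_zero hγ0 (pow_ne_zero _ ht0)
  obtain ⟨n, hn⟩ := k0_scale (β0 / (Λ * r i0))
  rw [← ht0d] at hn
  have hn2 : VO t0 (t0 ^ ((n + 1) * D) * (β0 / (Λ * r i0)) / t0) := by
    have h2 : n + 1 ≤ (n + 1) * D := Nat.le_mul_of_pos_right _ (Nat.pos_of_ne_zero hD0)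
    have h3 := hk.mono (m := n) (n := (n + 1) * D - 1) (by omega) hn
    have h4 : t0 ^ ((n + 1) * D) * (β0 / (Λ * r i0)) / t0 =
        t0 ^ ((n + 1) * D - 1) * (β0 / (Λ * r i0)) := by
      have h5 : (n + 1) * D = ((n + 1) * D - 1) + 1 := by omega
      rw [div_eq_iff ht0]
      conv_lhs => rw [h5, pow_succ]
      ring
    rw [h4]
    exact h3
  set P : k0 p := (t0 ^ (n + 1))⁻¹ with hP
  have hP0 : P ≠ 0 := inv_ne_zero (pow_ne_zero _ ht0)
  have hPD : P ^ D = (t0 ^ ((n + 1) * D))⁻¹ := by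
    rw [hP, inv_pow, ← pow_mul]
  set a : k0 p := -((∑ i, r i) / t0) * (r i0)⁻¹ - t0 ^ ((n + 1) * D) * (β0 / (Λ * r i0)) / t0
    with ha
  have haV : VO t0 a := hk.sub (hk.mul _ _ hS.neg hr0.2) hn2
  obtain ⟨w', hw'⟩ := one_add_pow hk (he i0) haV
  rw [← ht0d] at hw'
  refine ⟨fun i => ζ i * P ^ (D / e i) * (if i = i0 then 1 + t0 * w' else 1), ?_⟩
  have hterm : ∀ i, β i * (ζ i * P ^ (D / e i) * (if i = i0 then 1 + t0 * w' else 1)) ^ e i =
      Λ * P ^ D * (r i + if i = i0 then r i0 * (t0 * a) else 0) := by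
    intro i
    rw [mul_pow, mul_pow, ← pow_mul, Nat.div_mul_cancel (hdvd i)]
    by_cases hi : i = i0
    · subst hi
      rw [if_pos rfl, if_pos rfl, hw']
      linear_combination (P ^ D * (1 + t0 * a)) * hζ i
    · rw [if_neg hi, if_neg hi, one_pow]
      linear_combination (P ^ D) * hζ i
  rw [Finset.sum_congr rfl fun i _ => hterm i, ← Finset.mul_sum, Finset.sum_add_distrib,
    Finset.sum_ite_eq' Finset.univ i0, if_pos (Finset.mem_univ i0), hPD, ha]
  have h7 : t0 ^ ((n + 1) * D) ≠ 0 := pow_ne_zero _ ht0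
  have h8 := hr0.1
  generalize t0 ^ ((n + 1) * D) = B at h7 ⊢
  generalize (∑ i, r i) = S
  field_simp
  ring

end

end CD

/-- OP-B: diagonal equations with coefficients in `k0` -/
theorem const_diag {p : ℕ} [Fact p.Prime] {M : Type} [Field M] {σ : P1 p →+* M} (hM : Mdl p σ)
    (j : k0 p →+* M) (hj : ∀ f, j (sig0 p f) = σ f) {m : ℕ} (e : Fin m → ℕ)
    (he : ∀ i, ¬ p ∣ e i) (β : Fin m → k0 p) (β0 : k0 p) (z : Fin m → M)
    (h : ∑ i, j (β i) * z i ^ e i + j β0 = 0) :
    ∃ z' : Fin m → k0 p, ∑ i, β i * z' i ^ e i + β0 = 0 := by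
  classical
  have he0 : ∀ i, e i ≠ 0 := fun i h0 => he i (h0 ▸ dvd_zero p)
  by_cases hall : ∀ i, hM.vc (j (β i) * z i ^ e i) ≤ 1
  · -- the finite case
    have hjO : ∀ a : k0 p, j a ∈ hM.OC := fun a => hM.alg_mem_OC (hM.alg1_hom j hj a)
    have hst : ∀ a : k0 p, hM.st ⟨j a, hjO a⟩ = a := by
      intro a
      obtain ⟨h1, h2⟩ := hM.st_hom j hj hM.st
        (fun f => ⟨hM.OC_of_VO (hM.VO_σ f), hM.st_σ f _⟩) a
      exact h2
    let y : Fin m → M := fun i => if β i = 0 then 0 else z i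
    have hy : ∀ i, y i ∈ hM.OC := by
      intro i
      by_cases hβ : β i = 0
      · have h1 : y i = 0 := if_pos hβ
        rw [h1]
        exact zero_mem _
      · have h1 : y i = z i := if_neg hβ
        rw [h1, ← hM.vc_le_one]
        have h2 : hM.vc (z i) ^ e i ≤ 1 := by
          have h3 : z i ^ e i = j (β i)⁻¹ * (j (β i) * z i ^ e i) := by
            rw [map_inv₀, ← mul_assoc, inv_mul_cancel₀ ((map_ne_zero j).2 hβ), one_mul]
          rw [← map_pow, h3, map_mul]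
          exact mul_le_one' (hM.vc_le_one.2 (hjO _)) (hall i)
        exact (pow_le_one_iff (he0 i)).1 h2
    have hyz : ∀ i, j (β i) * y i ^ e i = j (β i) * z i ^ e i := by
      intro i
      by_cases hβ : β i = 0
      · rw [hβ, map_zero, zero_mul, zero_mul]
      · have h1 : y i = z i := if_neg hβ
        rw [h1]
    let u : Fin m → KK p := fun i => hM.st ⟨y i, hy i⟩
    have hu : ∑ i, (β i : KK p) * u i ^ e i + (β0 : KK p) = 0 := by
      have h1 : (∑ i, (⟨j (β i), hjO _⟩ : hM.OC) * ⟨y i, hy i⟩ ^ e i + ⟨j β0, hjO _⟩ : hM.OC) = 0 := by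
        apply Subtype.ext
        push_cast
        rw [Finset.sum_congr rfl fun i _ => hyz i]
        exact h
      have h2 := congrArg hM.st h1
      rw [map_add, map_sum, map_zero, hst] at h2
      simp only [map_mul, map_pow, hst] at h2
      exact h2
    obtain ⟨z', hz', -⟩ := LD90.ec p u
      {∑ i, MvPolynomial.C (β i) * MvPolynomial.X i ^ e i + MvPolynomial.C β0} (by
        intro f hf
        rw [Finset.mem_singleton] at hf
        rw [hf, MvPolynomial.eval₂_add, MvPolynomial.eval₂_sum, MvPolynomial.eval₂_C]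
        simp only [MvPolynomial.eval₂_mul, MvPolynomial.eval₂_pow, MvPolynomial.eval₂_C,
          MvPolynomial.eval₂_X]
        exact hu) 1 (by
        rw [MvPolynomial.eval₂_one]
        exact one_ne_zero)
    refine ⟨z', ?_⟩
    have h3 := hz' _ (Finset.mem_singleton_self _)
    simpa using h3
  · push Not at hall
    obtain ⟨i1, hi1⟩ := hall
    obtain ⟨i0, -, hi0⟩ := Finset.exists_max_image Finset.univ
      (fun i => hM.vc (j (β i) * z i ^ e i)) ⟨i1, Finset.mem_univ _⟩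
    exact CD.inf_case hM j hj e he β β0 z h i0 (fun i => hi0 i (Finset.mem_univ _))
      (lt_of_lt_of_le hi1 (hi0 i1 (Finset.mem_univ _)))

end OP90
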