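import Mathlib

/-!
# Normal form of quadratic polynomials
-/

set_option maxSynthPendingDepth 10

namespace OP90

open MvPolynomial Matrix

section quad

variable {E : Type*} [Field E] {n : ℕ}

/-- polynomials given by a quadratic form, a linear form and a constant -/
def QP2 (q : MvPolynomial (Fin n) E) : Prop :=
  ∃ (A : Matrix (Fin n) (Fin n) E) (b : Fin n → E) (c : E),
    q = ∑ i, ∑ k, C (A i k) * X i * X k + ∑ i, C (b i) * X i + C c

theorem QP2.add {q r : MvPolynomial (Fin n) E} (hq : QP2 q) (hr : QP2 r) : QP2 (q + r) := by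
  obtain ⟨A, b, c, rfl⟩ := hq
  obtain ⟨A', b', c', rfl⟩ := hr
  refine ⟨A + A', b + b', c + c', ?_⟩
  simp only [Matrix.add_apply, Pi.add_apply, C_add, add_mul, Finset.sum_add_distrib]
  ring

theorem QP2.zero : QP2 (0 : MvPolynomial (Fin n) E) :=
  ⟨0, 0, 0, by simp⟩

theorem QP2.mono (m : Fin n →₀ ℕ) (a : E) (hm : (m.sum fun _ e => e) ≤ 2) :
    QP2 (monomial m a) := by
  classical
  have hcard : Multiset.card (Finsupp.toMultiset m) ≤ 2 := by
    rw [Finsupp.card_toMultiset]
    exact hm
  have hinj : Function.Injective (Finsupp.toMultiset : (Fin n →₀ ℕ) → Multiset (Fin n)) :=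
    fun f g h => by rw [← Finsupp.toMultiset_toFinsupp f, h, Finsupp.toMultiset_toFinsupp]
  have hcases : Multiset.card (Finsupp.toMultiset m) = 0 ∨
      Multiset.card (Finsupp.toMultiset m) = 1 ∨ Multiset.card (Finsupp.toMultiset m) = 2 := by
    omega
  rcases hcases with h | h | h
  · rw [Multiset.card_eq_zero] at h
    have hm0 : m = 0 := hinj (by rw [h, map_zero])
    subst hm0
    refine ⟨0, 0, a, ?_⟩
    simp
  · rw [Multiset.card_eq_one] at h
    obtain ⟨u, hu⟩ := h
    have hm1 : m = Finsupp.single u 1 := hinj (by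
      rw [hu, Finsupp.toMultiset_single, one_smul])
    subst hm1
    refine ⟨0, Pi.single u a, 0, ?_⟩
    have h1 : ∑ i, C (Pi.single (M := fun _ : Fin n => E) u a i) * (X i : MvPolynomial (Fin n) E)
        = C a * X u := by
      rw [Finset.sum_eq_single u]
      · rw [Pi.single_eq_same]
      · intro i _ hi
        rw [Pi.single_eq_of_ne hi, C_0, zero_mul]
      · intro h
        exact absurd (Finset.mem_univ _) h
    rw [h1, ← C_mul_X_eq_monomial]
    simp
  · rw [Multiset.card_eq_two] at h
    obtain ⟨u, v, huv⟩ := h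
    have hm2 : m = Finsupp.single u 1 + Finsupp.single v 1 := hinj (by
      rw [huv, map_add, Finsupp.toMultiset_single, Finsupp.toMultiset_single, one_smul, one_smul]
      rfl)
    subst hm2
    refine ⟨Matrix.single u v a, 0, 0, ?_⟩
    have h1 : ∑ i, ∑ k, C (Matrix.single u v a i k) * X i * (X k : MvPolynomial (Fin n) E)
        = C a * X u * X v := by
      rw [Finset.sum_eq_single u]
      · rw [Finset.sum_eq_single v]
        · rw [Matrix.single_apply_same]
        · intro k _ hk
          rw [Matrix.single_apply_of_col_ne _ _ (Ne.symm hk), C_0, zero_mul, zero_mul]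
        · intro h
          exact absurd (Finset.mem_univ _) h
      · intro i _ hi
        refine Finset.sum_eq_zero fun k _ => ?_
        rw [Matrix.single_apply_of_row_ne (Ne.symm hi), C_0, zero_mul, zero_mul]
      · intro h
        exact absurd (Finset.mem_univ _) h
    rw [h1]
    have h2 : monomial (Finsupp.single u 1 + Finsupp.single v 1) a
        = C a * X u * (X v : MvPolynomial (Fin n) E) := by
      rw [C_mul_X_eq_monomial, X, monomial_mul, mul_one]
    rw [h2]
    simp

theorem QP2.of_deg (q : MvPolynomial (Fin n) E) (hq : q.totalDegree ≤ 2) : QP2 q := by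
  rw [← support_sum_monomial_coeff q]
  refine Finset.sum_induction _ QP2 (fun _ _ => QP2.add) QP2.zero fun m hm => ?_
  exact QP2.mono m _ ((le_totalDegree hm).trans hq)

/-- symmetric version -/
theorem QP2.symm (h2 : (2 : E) ≠ 0) {q : MvPolynomial (Fin n) E} (hq : QP2 q) :
    ∃ (A : Matrix (Fin n) (Fin n) E) (b : Fin n → E) (c : E), A.IsSymm ∧
      q = ∑ i, ∑ k, C (A i k) * X i * X k + ∑ i, C (b i) * X i + C c := by
  obtain ⟨A, b, c, rfl⟩ := hq
  refine ⟨Matrix.of fun i k => A i k / 2 + A k i / 2, b, c, ?_, ?_⟩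
  · ext i k
    simp [add_comm]
  · congr 2
    have h1 : ∑ i, ∑ k, C ((Matrix.of fun i k => A i k / 2 + A k i / 2) i k) * X i *
          (X k : MvPolynomial (Fin n) E)
        = ∑ i, ∑ k, C (A i k / 2) * X i * X k + ∑ i, ∑ k, C (A k i / 2) * X i * X k := by
      rw [← Finset.sum_add_distrib]
      refine Finset.sum_congr rfl fun i _ => ?_
      rw [← Finset.sum_add_distrib]
      refine Finset.sum_congr rfl fun k _ => ?_
      rw [Matrix.of_apply, C_add]
      ring
    have h3 : ∑ i, ∑ k, C (A k i / 2) * X i * (X k : MvPolynomial (Fin n) E)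
        = ∑ i, ∑ k, C (A i k / 2) * X i * X k := by
      rw [Finset.sum_comm]
      refine Finset.sum_congr rfl fun i _ => Finset.sum_congr rfl fun k _ => ?_
      ring
    rw [h1, h3, ← Finset.sum_add_distrib]
    refine Finset.sum_congr rfl fun i _ => ?_
    rw [← Finset.sum_add_distrib]
    refine Finset.sum_congr rfl fun k _ => ?_
    have h4 : C (A i k) = (C (A i k / 2) + C (A i k / 2) : MvPolynomial (Fin n) E) := by
      rw [← C_add]
      congr 1
      field_simp
      ring
    rw [h4]
    ring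

/-- evaluation after a linear substitution -/
theorem evalV {K : Type*} [CommRing K] (φ : E →+* K) {N : ℕ} (A : Matrix (Fin n) (Fin n) E)
    (b : Fin n → E) (c : E) (q : MvPolynomial (Fin n) E)
    (hq : q = ∑ i, ∑ k, C (A i k) * X i * X k + ∑ i, C (b i) * X i + C c)
    (V : Matrix (Fin n) (Fin N) E) (D : Fin N → E) (hD : Vᵀ * A * V = Matrix.diagonal D)
    (z : Fin N → K) :
    eval₂ φ (V.map φ *ᵥ z) q = ∑ k, φ (D k) * z k ^ 2 + ∑ k, φ ((b ᵥ* V) k) * z k + φ c := by
  set x : Fin n → K := V.map φ *ᵥ z with hx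
  have h1 : eval₂ φ x q = x ⬝ᵥ (A.map φ *ᵥ x) + (φ ∘ b) ⬝ᵥ x + φ c := by
    rw [hq]
    simp only [eval₂_add, eval₂_sum, eval₂_mul, eval₂_C, eval₂_X]
    congr 2
    simp only [dotProduct, mulVec, Finset.mul_sum, Matrix.map_apply]
    refine Finset.sum_congr rfl fun i _ => Finset.sum_congr rfl fun k _ => ?_
    ring
  have h2 : x ⬝ᵥ (A.map φ *ᵥ x) = z ⬝ᵥ ((V.map φ)ᵀ * A.map φ * V.map φ) *ᵥ z := by
    rw [← Matrix.mulVec_mulVec, ← hx, ← Matrix.mulVec_mulVec, Matrix.dotProduct_mulVec z,
      Matrix.vecMul_transpose, ← hx]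
  have h3 : (V.map φ)ᵀ * A.map φ * V.map φ = Matrix.diagonal (φ ∘ D) := by
    rw [← Matrix.transpose_map, ← Matrix.map_mul, ← Matrix.map_mul, hD]
    ext i k
    by_cases hik : i = k
    · subst hik
      simp
    · simp [Matrix.diagonal_apply_ne _ hik]
  have h4 : (φ ∘ b) ⬝ᵥ x = ∑ k, φ ((b ᵥ* V) k) * z k := by
    rw [hx, Matrix.dotProduct_mulVec]
    have h5 : (φ ∘ b) ᵥ* V.map φ = fun k => φ ((b ᵥ* V) k) := by
      funext k
      simp [Matrix.vecMul, dotProduct]
    rw [h5]
    rfl
  rw [h1, h2, h3, h4]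
  congr 2
  simp only [dotProduct, Matrix.mulVec_diagonal, Function.comp_apply]
  refine Finset.sum_congr rfl fun k _ => ?_
  ring

/-- orthogonal bases in matrix form -/
theorem exists_diag (h2 : (2 : E) ≠ 0) (A : Matrix (Fin n) (Fin n) E) (hA : A.IsSymm) :
    ∃ (N : ℕ) (V : Matrix (Fin n) (Fin N) E) (W : Matrix (Fin N) (Fin n) E) (D : Fin N → E),
      V * W = 1 ∧ Vᵀ * A * V = Matrix.diagonal D := by
  have hinv : Invertible (2 : E) := invertibleOfNonzero h2
  obtain ⟨v, hv⟩ := LinearMap.BilinForm.exists_orthogonal_basis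
    (B := Matrix.toBilin' A)
    (LinearMap.BilinForm.isSymm_iff.1 (Matrix.isSymm_toBilin'_iff_isSymm.2 hA))
  refine ⟨_, Matrix.of fun i k => v k i, Matrix.of fun k i => v.repr (Pi.single i 1) k,
    fun k => Matrix.toBilin' A (v k) (v k), ?_, ?_⟩
  · ext i i'
    have h1 := congrFun (v.sum_repr (Pi.single i' 1)) i
    rw [Finset.sum_apply] at h1
    rw [Matrix.mul_apply]
    have h3 : (∑ k, (Matrix.of fun i k => v k i) i k *
        (Matrix.of fun k i => v.repr (Pi.single i 1) k) k i')
        = ∑ k, (v.repr (Pi.single i' 1) k • v k) i := by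
      refine Finset.sum_congr rfl fun k _ => ?_
      rw [Matrix.of_apply, Matrix.of_apply, Pi.smul_apply, smul_eq_mul, mul_comm]
    rw [h3, h1, Matrix.one_apply]
    by_cases hii : i = i'
    · subst hii
      rw [Pi.single_eq_same, if_pos rfl]
    · rw [Pi.single_eq_of_ne hii, if_neg hii]
  · have h1 : ∀ k l, ((Matrix.of fun i k => v k i)ᵀ * A * (Matrix.of fun i k => v k i)) k l
        = Matrix.toBilin' A (v k) (v l) := by
      intro k l
      rw [Matrix.toBilin'_apply, Matrix.mul_apply]
      simp only [Matrix.mul_apply, Matrix.transpose_apply, Matrix.of_apply, Finset.sum_mul]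
      rw [Finset.sum_comm]
    ext k l
    rw [h1]
    by_cases hkl : k = l
    · subst hkl
      rw [Matrix.diagonal_apply_eq]
    · rw [Matrix.diagonal_apply_ne _ hkl]
      exact hv hkl

end quad

/-- OP-A (QuadNF.lean; field theory only): normal form of quadratic polynomials. Over `E`, either
every value is taken, or it is a sum of weighted squares plus a constant, over `M` as well -/
theorem quad_nf {E M : Type*} [Field E] [Field M] [Infinite E] (j : E →+* M) (h2 : (2 : E) ≠ 0)
    {n : ℕ} (q : MvPolynomial (Fin n) E) (hq : q.totalDegree ≤ 2) :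
    (∀ c : E, ∃ x : Fin n → E, eval x q = c) ∨
      ∃ (m : ℕ) (w : Fin m → E) (c : E),
        (∀ x : Fin n → M, ∃ z : Fin m → M, eval₂ j x q = ∑ i, j (w i) * z i ^ 2 + j c) ∧
        ∀ z : Fin m → E, ∃ x : Fin n → E, eval x q = ∑ i, w i * z i ^ 2 + c := by
  classical
  obtain ⟨A, b, c, hA, hq2⟩ := (QP2.of_deg q hq).symm h2
  obtain ⟨N, V, W, D, hVW, hD⟩ := exists_diag h2 A hA
  have hE : ∀ z : Fin N → E, eval (V *ᵥ z) q = ∑ k, D k * z k ^ 2 + ∑ k, (b ᵥ* V) k * z k + c := by
    intro z
    have h := evalV (RingHom.id E) A b c q hq2 V D hD z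
    have h3 : V.map (RingHom.id E) = V := by
      ext i k
      rfl
    rw [h3] at h
    exact h
  by_cases H : ∃ k, D k = 0 ∧ (b ᵥ* V) k ≠ 0
  · left
    intro c0
    obtain ⟨k, hk, hbk⟩ := H
    refine ⟨V *ᵥ Pi.single k ((c0 - c) / (b ᵥ* V) k), ?_⟩
    rw [hE, Finset.sum_eq_single k, Finset.sum_eq_single k, Pi.single_eq_same, hk]
    · field_simp
      ring
    · intro l _ hl
      rw [Pi.single_eq_of_ne hl, mul_zero]
    · intro h
      exact absurd (Finset.mem_univ _) h
    · intro l _ hl
      rw [Pi.single_eq_of_ne hl]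
      ring
    · intro h
      exact absurd (Finset.mem_univ _) h
  · right
    have hs : ∀ k, (b ᵥ* V) k = 2 * D k * ((b ᵥ* V) k / (2 * D k)) := by
      intro k
      by_cases hk : D k = 0
      · have h3 : (b ᵥ* V) k = 0 := by
          by_contra h
          exact H ⟨k, hk, h⟩
        rw [h3, zero_div, mul_zero]
      · field_simp
    set s : Fin N → E := fun k => (b ᵥ* V) k / (2 * D k) with hsdef
    have hs' : ∀ k, (b ᵥ* V) k = 2 * D k * s k := hs
    refine ⟨N, D, c - ∑ k, D k * s k ^ 2, ?_, ?_⟩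
    · intro x
      refine ⟨fun k => (W.map j *ᵥ x) k + j (s k), ?_⟩
      have h3 : V.map j *ᵥ (W.map j *ᵥ x) = x := by
        rw [Matrix.mulVec_mulVec, ← Matrix.map_mul, hVW, Matrix.map_one _ (map_zero j) (map_one j),
          Matrix.one_mulVec]
      have h4 := evalV j A b c q hq2 V D hD (W.map j *ᵥ x)
      rw [h3] at h4
      rw [h4]
      have h5 : ∀ k, j (D k) * ((W.map j *ᵥ x) k + j (s k)) ^ 2
          = (j (D k) * (W.map j *ᵥ x) k ^ 2 + j ((b ᵥ* V) k) * (W.map j *ᵥ x) k)
            + j (D k * s k ^ 2) := by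
        intro k
        rw [hs' k]
        simp only [map_mul, map_pow, map_ofNat]
        ring
      rw [Finset.sum_congr rfl fun k _ => h5 k, Finset.sum_add_distrib, Finset.sum_add_distrib,
        map_sub, map_sum]
      ring
    · intro z
      refine ⟨V *ᵥ fun k => z k - s k, ?_⟩
      rw [hE]
      have h5 : ∀ k, D k * z k ^ 2
          = (D k * (z k - s k) ^ 2 + (b ᵥ* V) k * (z k - s k)) + D k * s k ^ 2 := by
        intro k
        rw [hs' k]
        ring
      rw [Finset.sum_congr rfl fun k _ => h5 k, Finset.sum_add_distrib, Finset.sum_add_distrib]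
      ring

end OP90
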