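import Pool.Agent.OP90.Defs
import Pool.Agent.LD90.Lin
import Pool.Agent.BF80.Main

/-!
# Diagonal equations: from the model to the elements algebraic over the parameter
-/

set_option maxSynthPendingDepth 10

namespace OP90

open FT80 BF80

section root

variable {R L : Type*} [CommRing R] [IsDomain R] [Field L]

theorem root_mem (τ : R →+* L) {z : L} {n : ℕ} (hn : n ≠ 0) (h : z ^ n ∈ algField τ) :
    z ∈ algField τ := by
  have h1 : (Polynomial.X ^ n - Polynomial.C (⟨z ^ n, h⟩ : algField τ)) ≠ 0 :=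
    Polynomial.X_pow_sub_C_ne_zero (Nat.pos_of_ne_zero hn) _
  refine BF80.CI.alg1_of_alg h1 ?_
  rw [Polynomial.eval₂_sub, Polynomial.eval₂_X_pow, Polynomial.eval₂_C]
  exact sub_self _

end root

section diag

variable {p : ℕ} [hp : Fact p.Prime] {M : Type} [Field M] {σ : P1 p →+* M}

/-- power classes are represented by constants, with a factor in `E` -/
theorem class_rep (hM : Mdl p σ) (j : k0 p →+* M) (hj : ∀ f, j (sig0 p f) = σ f) (E : Subfield M)
    (hE1 : ∀ a, j a ∈ E) (hE2 : ∀ (z : M) (n : ℕ), n ≠ 0 → z ^ n ∈ E → z ∈ E) {n : ℕ}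
    (hn : ¬ p ∣ n) {x : M} (hx : x ∈ E) (hx0 : x ≠ 0) :
    ∃ (β : k0 p) (v : M), v ≠ 0 ∧ v ∈ E ∧ j β * v ^ n = x := by
  have hn0 : n ≠ 0 := fun h => hn (h ▸ dvd_zero p)
  obtain ⟨γ, -, i, -, y, -, hxy⟩ := hM.pow n hn x hx0
  refine ⟨(γ : ℕ) * sig0 p Polynomial.X ^ i, y, ?_, ?_, ?_⟩
  · rintro rfl
    rw [zero_pow hn0, mul_zero] at hxy
    exact hx0 hxy
  · have h1 : j ((γ : ℕ) * sig0 p Polynomial.X ^ i) * y ^ n = x := by
      rw [map_mul, map_natCast, map_pow, hj]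
      exact hxy.symm
    have h0 : j ((γ : ℕ) * sig0 p Polynomial.X ^ i) ≠ 0 := by
      intro h
      rw [h, zero_mul] at h1
      exact hx0 h1.symm
    apply hE2 _ n hn0
    have h2 : y ^ n = (j ((γ : ℕ) * sig0 p Polynomial.X ^ i))⁻¹ * x := by
      rw [← h1, ← mul_assoc, inv_mul_cancel₀ h0, one_mul]
    rw [h2]
    exact mul_mem (inv_mem (hE1 _)) hx
  · rw [map_mul, map_natCast, map_pow, hj]
    exact hxy.symm

/-- diagonal equations -/
theorem diag_up (hM : Mdl p σ) (j : k0 p →+* M) (hj : ∀ f, j (sig0 p f) = σ f)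
    (hcd : ∀ {m : ℕ} (e : Fin m → ℕ) (_ : ∀ i, ¬ p ∣ e i) (β : Fin m → k0 p) (β0 : k0 p)
      (z : Fin m → M) (_ : ∑ i, j (β i) * z i ^ e i + j β0 = 0),
      ∃ z' : Fin m → k0 p, ∑ i, β i * z' i ^ e i + β0 = 0)
    (E : Subfield M) (hE1 : ∀ a, j a ∈ E) (hE2 : ∀ (z : M) (n : ℕ), n ≠ 0 → z ^ n ∈ E → z ∈ E)
    {m : ℕ} (e : Fin m → ℕ) (he : ∀ i, ¬ p ∣ e i) (b : Fin m → M)
    (hb : ∀ i, b i ∈ E) (c : M) (hc : c ∈ E) (z : Fin m → M)
    (h : ∑ i, b i * z i ^ e i + c = 0) :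
    ∃ z' : Fin m → M, (∀ i, z' i ∈ E) ∧ ∑ i, b i * z' i ^ e i + c = 0 := by
  classical
  have he0 : ∀ i, e i ≠ 0 := fun i h0 => he i (h0 ▸ dvd_zero p)
  by_cases hc0 : c = 0
  · refine ⟨fun _ => 0, fun _ => zero_mem _, ?_⟩
    rw [hc0, add_zero]
    exact Finset.sum_eq_zero fun i _ => by rw [zero_pow (he0 i), mul_zero]
  set D := ∏ i, e i with hD
  have hpD : ¬ p ∣ D := by
    intro h1
    obtain ⟨i, -, hi⟩ := (hp.out.prime.dvd_finsetProd_iff _).1 h1
    exact he i hi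
  have hdvd : ∀ i, e i ∣ D := fun i => Finset.dvd_prod_of_mem _ (Finset.mem_univ i)
  obtain ⟨β0, u, hu0, huE, hu⟩ := class_rep hM j hj E hE1 hE2 hpD hc hc0
  have hrep : ∀ i, ∃ (β : k0 p) (v : M), v ≠ 0 ∧ v ∈ E ∧ j β * v ^ e i = b i := by
    intro i
    by_cases h0 : b i = 0
    · exact ⟨0, 1, one_ne_zero, one_mem _, by rw [map_zero, zero_mul, h0]⟩
    · exact class_rep hM j hj E hE1 hE2 (he i) (hb i) h0
  choose β v hv0 hvE hv using hrep
  have hDe : ∀ i, (u ^ (D / e i)) ^ e i = u ^ D := by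
    intro i
    rw [← pow_mul, Nat.div_mul_cancel (hdvd i)]
  have huD : u ^ D ≠ 0 := pow_ne_zero _ hu0
  obtain ⟨z', hz'⟩ := hcd e he β β0 (fun i => v i * z i / u ^ (D / e i)) (by
    have h1 : ∀ i, j (β i) * (v i * z i / u ^ (D / e i)) ^ e i = b i * z i ^ e i / u ^ D := by
      intro i
      rw [div_pow, hDe, mul_pow, ← hv i]
      ring
    rw [Finset.sum_congr rfl fun i _ => h1 i, ← Finset.sum_div, div_add' _ _ _ huD, hu, h,
      zero_div])
  refine ⟨fun i => u ^ (D / e i) * j (z' i) / v i, fun i => ?_, ?_⟩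
  · exact div_mem (mul_mem (pow_mem huE _) (hE1 _)) (hvE i)
  · have h1 : ∀ i, b i * (u ^ (D / e i) * j (z' i) / v i) ^ e i =
        u ^ D * (j (β i) * j (z' i) ^ e i) := by
      intro i
      have h2 : v i ^ e i ≠ 0 := pow_ne_zero _ (hv0 i)
      rw [div_pow, mul_pow, hDe, ← hv i]
      field_simp
    rw [Finset.sum_congr rfl fun i _ => h1 i, ← Finset.mul_sum]
    have h3 := congrArg j hz'
    rw [map_add, map_sum, map_zero] at h3
    simp only [map_mul, map_pow] at h3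
    rw [← hu]
    linear_combination u ^ D * h3

end diag

end OP90
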