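import Pool.Agent.OP90.Up
import Pool.Agent.OP90.Down

/-!
# Solvability in the models and in `k0`
-/

set_option maxSynthPendingDepth 10

namespace OP90

open FT80 BF80

/-- diagonal equations with coefficients in `k0` -/
def CD (p : ℕ) [Fact p.Prime] : Prop :=
  ∀ {M : Type} [Field M] {σ : P1 p →+* M}, Mdl p σ → ∀ (j : k0 p →+* M),
    (∀ f, j (sig0 p f) = σ f) → ∀ {m : ℕ} (e : Fin m → ℕ), (∀ i, ¬ p ∣ e i) →
    ∀ (β : Fin m → k0 p) (β0 : k0 p) (z : Fin m → M), ∑ i, j (β i) * z i ^ e i + j β0 = 0 →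
    ∃ z' : Fin m → k0 p, ∑ i, β i * z' i ^ e i + β0 = 0

/-- normal form of quadratic polynomials -/
def QNF : Prop :=
  ∀ {E M : Type} [Field E] [Field M] [Infinite E] (j : E →+* M), (2 : E) ≠ 0 →
    ∀ {n : ℕ} (q : MvPolynomial (Fin n) E), q.totalDegree ≤ 2 →
    (∀ c : E, ∃ x : Fin n → E, MvPolynomial.eval x q = c) ∨
      ∃ (m : ℕ) (w : Fin m → E) (c : E),
        (∀ x : Fin n → M, ∃ z : Fin m → M,
          MvPolynomial.eval₂ j x q = ∑ i, j (w i) * z i ^ 2 + j c) ∧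
        ∀ z : Fin m → E, ∃ x : Fin n → E, MvPolynomial.eval x q = ∑ i, w i * z i ^ 2 + c

section core

variable {p : ℕ} [Fact p.Prime] {M : Type} [Field M] {σ : P1 p →+* M}

/-- a solvable equation is solvable by elements algebraic over the parameter -/
theorem up_r (hCD : CD p) (hA : QNF) (hM : Mdl p σ) (s : M) (f : Eqn) (hf : Adm p f)
    (h : ∃ x y : ℕ → M, Eqn.val (σ Polynomial.X) s x y f = 0) :
    ∃ x y : ℕ → M, (∀ i, RAlg σ s (x i)) ∧ (∀ i, RAlg σ s (y i)) ∧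
      Eqn.val (σ Polynomial.X) s x y f = 0 := by
  obtain ⟨j, hj, -⟩ := hM.exists_j
  have h1 : ∀ E : Subfield M, (∀ a, j a ∈ E) → (∀ (z : M) (n : ℕ), n ≠ 0 → z ^ n ∈ E → z ∈ E) →
      s ∈ E → ∃ x y : ℕ → M, (∀ i, x i ∈ E) ∧ (∀ i, y i ∈ E) ∧
        Eqn.val (σ Polynomial.X) s x y f = 0 := fun E hE1 hE2 hs =>
    up_of hM j hj (fun e he β β0 z hz => hCD hM j hj e he β β0 z hz)
      (fun E _ _ ι h2 n q hq => hA ι h2 q hq) E hE1 hE2 s hs f hf h
  by_cases hs : BF80.Alg1 σ s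
  · obtain ⟨x, y, hx, hy, h0⟩ := h1 (algField σ) (fun a => hM.alg1_hom j hj a)
      (fun z n hn hz => root_mem σ hn hz) hs
    exact ⟨x, y, fun i => (RAlg.iff_alg hs _).2 (hx i), fun i => (RAlg.iff_alg hs _).2 (hy i), h0⟩
  · obtain ⟨x, y, hx, hy, h0⟩ := h1 (algField (ev1 σ s))
      (fun a => alg1_lift (hM.alg1_hom j hj a))
      (fun z n hn hz => root_mem _ hn hz) (x_mem_acl s)
    exact ⟨x, y, fun i => (RAlg.iff_trans hs _).2 (hx i),
      fun i => (RAlg.iff_trans hs _).2 (hy i), h0⟩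

/-- solvability in a model is solvability in `k0` -/
theorem psol_k0 (hCD : CD p) (hA : QNF) (hM : Mdl p σ) (a : List Eqn × PS)
    (ha : ∀ f ∈ a.1, Adm p f) : PSol (σ Polynomial.X) a ↔ PSol (sig0 p Polynomial.X) a := by
  constructor
  · rintro ⟨s, hg, h⟩
    exact down hM s a hg fun f hf => up_r hCD hA hM s f (ha f hf) (h f hf)
  · intro h
    obtain ⟨j, hj, -⟩ := hM.exists_j
    have := h.map j j.injective
    rwa [hj] at this

theorem psol_KK (hCD : CD p) (hA : QNF) (hM : Mdl p σ) (a : List Eqn × PS)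
    (ha : ∀ f ∈ a.1, Adm p f) : PSol (σ Polynomial.X) a ↔ PSol (tauK p Polynomial.X) a :=
  (psol_k0 hCD hA hM a ha).trans (psol_k0 hCD hA mdl_KK a ha).symm

end core

end OP90
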