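import Mathlib

/-!
# Equations over a one-parameter base: definitions

`PS` stands for polynomials in `t` and `s` (lists of monomials `t ^ k * s ^ e`, coefficients in
`F_p` by repetition). An equation `f` has a polynomial part in auxiliary variables `x_i` and a
diagonal part `a_1(s) y_1 ^ d_1 + … + a_r(s) y_r ^ d_r` in further auxiliary variables.
-/

namespace OP90

/-- polynomials in `t` and `s` -/
abbrev PS := List (ℕ × ℕ)

/-- value of a polynomial in `t` and `s` -/
def evs {R : Type*} [CommRing R] (t s : R) (c : PS) : R :=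
  (c.map fun m => t ^ m.1 * s ^ m.2).sum

/-- equations: the pair `(c, l)` in the first list stands for `c(s) * ∏_{i ∈ l} x_i`, the `i`-th
pair `(a, d)` in the second list for `a(s) * y_i ^ d` -/
abbrev Eqn := List (PS × List ℕ) × List (PS × ℕ)

/-- the polynomial part -/
def qv {R : Type*} [CommRing R] (t s : R) (x : ℕ → R) (l : List (PS × List ℕ)) : R :=
  (l.map fun m => evs t s m.1 * (m.2.map x).prod).sum

/-- the diagonal part -/
def dv {R : Type*} [CommRing R] (t s : R) : List (PS × ℕ) → (ℕ → R) → R
  | [], _ => 0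
  | (a, d) :: l, y => evs t s a * y 0 ^ d + dv t s l fun i => y (i + 1)

/-- the left hand side of the equation -/
def Eqn.val {R : Type*} [CommRing R] (t s : R) (x y : ℕ → R) (f : Eqn) : R :=
  qv t s x f.1 + dv t s f.2 y

/-- admissible equations: the polynomial part has degree at most `2` in the `x_i` (at most `1` if
`p = 2`), the exponents of the diagonal part are prime to `p` -/
def Adm (p : ℕ) (f : Eqn) : Prop :=
  (∀ m ∈ f.1, m.2.length ≤ 2 ∧ (p = 2 → m.2.length ≤ 1)) ∧ ∀ m ∈ f.2, ¬ p ∣ m.2

/-- there is a parameter `s` with `g(s) ≠ 0` for which every equation of the list is solvable -/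
def PSol {R : Type*} [CommRing R] (t : R) (a : List Eqn × PS) : Prop :=
  ∃ s : R, evs t s a.2 ≠ 0 ∧ ∀ f ∈ a.1, ∃ x y : ℕ → R, Eqn.val t s x y f = 0

end OP90
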