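import Pool.Agent.OP90.Core
import Pool.Agent.OP90.Dec
import Pool.Agent.OP90.ConstDiag
import Pool.Agent.OP90.QuadNF

/-!
# Equations over a one-parameter base
-/

set_option maxSynthPendingDepth 10

namespace OP90

open FT80 BF80

theorem cd_holds (p : ℕ) [Fact p.Prime] : CD p := fun hM j hj _ e he β β0 z h =>
  const_diag hM j hj e he β β0 z h

theorem qnf_holds : QNF := fun j h2 _ q hq => quad_nf j h2 q hq

theorem one_parameter (p : ℕ) [Fact p.Prime] :
    ∃ D : List Eqn × PS → Bool, Computable D ∧ ∀ a : List Eqn × PS, (∀ f ∈ a.1, Adm p f) →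
      (D a = true ↔ PSol (HahnSeries.single 1 1 : LaurentSeries (ZMod p)) a) :=
  decide_psol p fun _ _ _ hM a ha => psol_KK (cd_holds p) qnf_holds hM a ha

end OP90
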