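import Pool.Agent.OP90.Defs

/-!
# Solvability and ring homomorphisms
-/

namespace OP90

section map

variable {R S : Type*} [CommRing R] [CommRing S]

theorem evs_map' (φ : R →+* S) (t s : R) (c : PS) : evs (φ t) (φ s) c = φ (evs t s c) := by
  rw [evs, evs, map_list_sum, List.map_map]
  congr 1
  refine List.map_congr_left fun m _ => ?_
  simp only [Function.comp_apply, map_mul, map_pow]

theorem qv_map (φ : R →+* S) (t s : R) (x : ℕ → R) (l : List (PS × List ℕ)) :
    qv (φ t) (φ s) (fun i => φ (x i)) l = φ (qv t s x l) := by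
  rw [qv, qv, map_list_sum, List.map_map]
  congr 1
  refine List.map_congr_left fun m _ => ?_
  simp only [Function.comp_apply, map_mul, evs_map', map_list_prod, List.map_map]
  rfl

theorem dv_map (φ : R →+* S) (t s : R) (l : List (PS × ℕ)) : ∀ y : ℕ → R,
    dv (φ t) (φ s) l (fun i => φ (y i)) = φ (dv t s l y) := by
  induction l with
  | nil => intro y; simp [dv]
  | cons a l ih =>
    intro y
    obtain ⟨a, d⟩ := a
    rw [dv, dv, map_add, map_mul, map_pow, evs_map']
    congr 1
    exact ih fun i => y (i + 1)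

theorem val_map (φ : R →+* S) (t s : R) (x y : ℕ → R) (f : Eqn) :
    Eqn.val (φ t) (φ s) (fun i => φ (x i)) (fun i => φ (y i)) f = φ (Eqn.val t s x y f) := by
  rw [Eqn.val, Eqn.val, map_add, qv_map, dv_map]

theorem PSol.map (φ : R →+* S) (hφ : Function.Injective φ) {t : R} {a : List Eqn × PS}
    (h : PSol t a) : PSol (φ t) a := by
  obtain ⟨s, h1, h2⟩ := h
  refine ⟨φ s, ?_, fun f hf => ?_⟩
  · rw [evs_map']
    exact fun h => h1 ((map_eq_zero_iff φ hφ).1 h)
  · obtain ⟨x, y, hxy⟩ := h2 f hf
    exact ⟨fun i => φ (x i), fun i => φ (y i), by rw [val_map, hxy, map_zero]⟩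

end map

end OP90
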